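import Pool.Agent.Y570.SP.Main
import Pool.Agent.Y570.SP.Exact

/-!
# MP_b5f63d_co: the `k`-point semidefinite bounds for kissing numbers

A pseudo-code of level `k` on a finite set `X` of unit vectors of `ℝ^n` is a real function `y` on
the subsets of `X` which behaves like `y(S) = Prob(S ⊆ C)` for a random spherical code `C ⊆ X` with
inner products `≤ s`, as far as this can be seen on `k` points: `y(∅) = 1`, `y(S) = 0` if `S` has
two points with inner product `> s`, all pseudo-probabilities `Prob(D ⊆ C, F ∩ C = ∅)` with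
`|D| + |F| ≤ k` are nonnegative, and all pseudo-moment matrices of the variables `1, [x ∈ C]`
conditioned on `D ⊆ C, F ∩ C = ∅` with `|D| + |F| ≤ k - 2` are positive semidefinite. The `k`-point
bound is the supremum of the pseudo-expectation of `|C|` over all pseudo-codes of level `k`.

The `k`-point bounds bound all spherical codes, they decrease with `k`, they are exact as soon as
`k` is larger than the size of the largest code, and they are at least as strong as the bounds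
given by `k`-point certificates (Delsarte, Goethals and Seidel for `k = 2`; Bachoc and Vallentin for
`k = 3`; Musin, de Laat, Machado, de Oliveira Filho and Vallentin for all `k`). Nevertheless, for
all levels `k ≤ exp(c n)` the `k`-point bound for the kissing number is at least `2^(0.3955 n)`.
-/

open MeasureTheory Filter Topology

namespace Pool.Agent.Results.MP_b5f63d_co.KPointKissing

/-- The pseudo-probability of `D ∪ S ⊆ C, F ∩ C = ∅`:
`∑_{G ⊆ F} (-1)^|G| y(D ∪ G ∪ S)`. -/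
def pseudoProb {V : Type} [DecidableEq V] (y : Finset V → ℝ) (D F S : Finset V) : ℝ :=
  ∑ G ∈ F.powerset, (-1) ^ G.card * y (D ∪ G ∪ S)

open Classical in
/-- Pseudo-codes of level `k` with inner products at most `s` on the finite set `X`. The rows and
columns of the matrices are indexed by `∅` (that is, `none`) and the sets `{x}` (that is,
`some x`). -/
structure IsPseudoCode (n k : ℕ) (s : ℝ) (X : Finset (EuclideanSpace ℝ (Fin n)))
    (y : Finset X → ℝ) : Prop where
  one : y ∅ = 1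
  sep : ∀ S : Finset X, ∀ u ∈ S, ∀ v ∈ S, u ≠ v →
    s < inner ℝ (u : EuclideanSpace ℝ (Fin n)) v → y S = 0
  nonneg : ∀ D F : Finset X, D.card + F.card ≤ k → 0 ≤ pseudoProb y D F ∅
  psd : ∀ D F : Finset X, D.card + F.card + 2 ≤ k → ∀ a : Option X → ℝ,
    0 ≤ ∑ s, ∑ t, a s * a t * pseudoProb y D F (s.toFinset ∪ t.toFinset)

/-- `B` is an upper bound for `∑_x y({x})` for all pseudo-codes `y` of level `k` on finite sets of
unit vectors. -/
def IsBound (n k : ℕ) (s B : ℝ) : Prop :=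
  ∀ X : Finset (EuclideanSpace ℝ (Fin n)), (∀ x ∈ X, ‖x‖ = 1) →
    ∀ y : Finset X → ℝ, IsPseudoCode n k s X y → ∑ x, y {x} ≤ B

/-- The `k`-point bound for spherical codes in `S^(n-1)` with inner products at most `s`: the best
upper bound of this kind. -/
noncomputable def kPoint (n k : ℕ) (s : ℝ) : ℝ := sInf {B : ℝ | IsBound n k s B}

/-- The contribution of the set `S` to `∑_Q ∑_{x, z} T_Q(x, z)`: the sum of `T_Q(x, z)` over all
`Q, x, z` with `|Q| ≤ k - 2` and `Q ∪ {x, z} = S`. -/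
def contribution {V : Type} [DecidableEq V] (k : ℕ) (T : Finset V → V → V → ℝ)
    (S : Finset V) : ℝ :=
  ∑ Q ∈ S.powerset, ∑ x ∈ S, ∑ z ∈ S, if Q.card + 2 ≤ k ∧ Q ∪ {x, z} = S then T Q x z else 0

/-- The unit ball of `ℝ^n`. -/
abbrev ball (n : ℕ) : Set (EuclideanSpace ℝ (Fin n)) := Metric.ball 0 1

/-- The mean of `g(⟨x, y⟩)` over the sphere: the mean of `g` of the cosine of the angle between two
independent random points of the unit ball. -/
noncomputable def mean (n : ℕ) (g : ℝ → ℝ) : ℝ :=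
  (∫ u in ball n, ∫ w in ball n, g (inner ℝ u w / (‖u‖ * ‖w‖))) / (volume (ball n)).toReal ^ 2

open Classical in
/-- The `k`-point certificates: `T_∅(x, z) = g(⟨x, z⟩)` for a positive definite function `g` on the
sphere, the other `T_Q` are positive semidefinite kernels, codes of `2, …, k` unit vectors with
inner products `≤ s` have contribution `≤ 0` and single points have contribution `≤ lam`. For
`k = 2` this says that `g` is an auxiliary function of the linear programming bound and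
`g(1) ≤ lam`. -/
structure IsCertificate (n k : ℕ) (s : ℝ) (g : ℝ → ℝ)
    (T : Finset (EuclideanSpace ℝ (Fin n)) → EuclideanSpace ℝ (Fin n) →
      EuclideanSpace ℝ (Fin n) → ℝ) (lam : ℝ) : Prop where
  continuousOn : ContinuousOn g (Set.Icc (-1) 1)
  posdef : ∀ (m : ℕ) (x : Fin m → EuclideanSpace ℝ (Fin n)) (a : Fin m → ℝ), (∀ i, ‖x i‖ = 1) →
    0 ≤ ∑ i, ∑ j, a i * a j * g (inner ℝ (x i) (x j))
  empty : ∀ x z, T ∅ x z = g (inner ℝ x z)
  symm : ∀ Q x z, T Q x z = T Q z x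
  psd : ∀ Q : Finset (EuclideanSpace ℝ (Fin n)), Q.Nonempty →
    ∀ (X : Finset (EuclideanSpace ℝ (Fin n))) (a : EuclideanSpace ℝ (Fin n) → ℝ),
      (∀ x ∈ X, ‖x‖ = 1) → 0 ≤ ∑ x ∈ X, ∑ z ∈ X, a x * a z * T Q x z
  single : ∀ x, ‖x‖ = 1 → contribution k T {x} ≤ lam
  sep : ∀ S : Finset (EuclideanSpace ℝ (Fin n)), 2 ≤ S.card → S.card ≤ k → (∀ x ∈ S, ‖x‖ = 1) →
    (∀ x ∈ S, ∀ z ∈ S, x ≠ z → inner ℝ x z ≤ s) → contribution k T S ≤ 0

open Pool.Agent.Y570

lemma code_iff (n k : ℕ) (s : ℝ) (X : Finset (EuclideanSpace ℝ (Fin n))) (y : Finset X → ℝ) :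
    IsPseudoCode n k s X y ↔ SP.SCode n k s X y :=
  ⟨fun h => ⟨h.one, h.sep, h.nonneg, h.psd⟩, fun h => ⟨h.one, h.sep, h.nonneg, h.psd⟩⟩

lemma bound_iff (n k : ℕ) (s B : ℝ) : IsBound n k s B ↔ SP.SBound n k s B := by
  unfold IsBound SP.SBound
  simp only [code_iff]

lemma kPoint_eq (n k : ℕ) (s : ℝ) : kPoint n k s = SP.KS n k s := by
  unfold kPoint SP.KS
  simp only [bound_iff]

lemma cert_of {n k : ℕ} {s : ℝ} {g : ℝ → ℝ}
    {T : Finset (EuclideanSpace ℝ (Fin n)) → EuclideanSpace ℝ (Fin n) →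
      EuclideanSpace ℝ (Fin n) → ℝ} {lam : ℝ} (h : IsCertificate n k s g T lam) :
    SP.SCert n k s g T lam :=
  ⟨h.continuousOn, h.posdef, h.empty, h.symm, h.psd, h.single, h.sep⟩

lemma sbound_two {n k : ℕ} (hk : 2 ≤ k) {s B : ℝ} (h : SP.SBound n 2 s B) :
    SP.SBound n k s B := by
  induction k, hk using Nat.le_induction with
  | base => exact h
  | succ k hk ih => exact SP.sbound_mono ih

/-- the linear programming bound -/
lemma lp_bound {n : ℕ} (hn : 0 < n) {s : ℝ} {g : ℝ → ℝ}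
    (hg : Pool.Agent.TH41.BL.SAux n s g) (hm : 0 < SP.mean n g) :
    SP.SBound n 2 s (g 1 / SP.mean n g) := by
  classical
  refine SP.scert_bound hn le_rfl (T := fun Q x z => if Q = ∅ then g (inner ℝ x z) else 0)
    ⟨hg.continuousOn, hg.posdef, fun x z => by simp, fun Q x z => ?_, fun Q hQ X a _ => ?_,
      fun x hx => ?_, fun S h2 _ hS hs => ?_⟩ hm
  · simp only [real_inner_comm]
  · simp [hQ.ne_empty]
  · unfold Pool.Agent.Y509.KP.contr
    refine (Finset.sum_eq_single ∅ ?_ ?_).trans_le ?_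
    · intro Q _ hQ
      simp [hQ]
    · intro h
      exact absurd (Finset.empty_mem_powerset _) h
    · simp [hx]
  · unfold Pool.Agent.Y509.KP.contr
    refine Finset.sum_nonpos fun Q _ => Finset.sum_nonpos fun x hx =>
      Finset.sum_nonpos fun z hz => ?_
    by_cases h3 : Q.card + 2 ≤ 2 ∧ Q ∪ {x, z} = S
    · rw [if_pos h3]
      beta_reduce
      by_cases h4 : Q = ∅
      · rw [if_pos h4]
        have hxz : x ≠ z := by
          intro hxz
          have h5 := h3.2
          rw [h4, hxz, Finset.pair_eq_singleton, Finset.empty_union] at h5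
          rw [← h5, Finset.card_singleton] at h2
          omega
        refine hg.nonpos _ ?_ (hs x hx z hz hxz)
        have h6 := abs_real_inner_le_norm x z
        rw [hS x hx, hS z hz, one_mul] at h6
        exact (abs_le.1 h6).1
      · rw [if_neg h4]
    · rw [if_neg h3]

/-- **The `k`-point bounds for spherical codes and kissing numbers.** -/
theorem result :
    (∀ (n k : ℕ) (s : ℝ), 2 ≤ k → s < 1 →
      (∀ C : Finset (EuclideanSpace ℝ (Fin n)), (∀ x ∈ C, ‖x‖ = 1) →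
        (∀ x ∈ C, ∀ z ∈ C, x ≠ z → inner ℝ x z ≤ s) → (C.card : ℝ) ≤ kPoint n k s) ∧
      kPoint n (k + 1) s ≤ kPoint n k s) ∧
    (∀ (n k M : ℕ) (s : ℝ), (∀ C : Finset (EuclideanSpace ℝ (Fin n)), (∀ x ∈ C, ‖x‖ = 1) →
        (∀ x ∈ C, ∀ z ∈ C, x ≠ z → inner ℝ x z ≤ s) → C.card ≤ M) →
      M + 1 ≤ k → kPoint n k s ≤ M) ∧
    (∀ (n k : ℕ) (s : ℝ) (g : ℝ → ℝ)
      (T : Finset (EuclideanSpace ℝ (Fin n)) → EuclideanSpace ℝ (Fin n) →
        EuclideanSpace ℝ (Fin n) → ℝ) (lam : ℝ), 0 < n → 2 ≤ k →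
      IsCertificate n k s g T lam → 0 < mean n g → kPoint n k s ≤ lam / mean n g) ∧
    (∃ c : ℝ, 0 < c ∧ ∀ ε : ℝ, 0 < ε → ε ≤ 1 → ∀ s : ℝ, s < 1 → ∀ᶠ n : ℕ in atTop, ∀ k : ℕ,
      2 ≤ k → (k : ℝ) ≤ Real.exp (c * ε ^ 6 * n) →
      (Real.exp 1 / (Real.pi * (1 - s))) ^ ((n : ℝ) / 2) * Real.exp (-ε * n) ≤ kPoint n k s) ∧
    (∃ c : ℝ, 0 < c ∧ ∀ᶠ n : ℕ in atTop, ∀ k : ℕ, 2 ≤ k → (k : ℝ) ≤ Real.exp (c * n) →
      (2 : ℝ) ^ ((3955 / 10000 : ℝ) * n) ≤ kPoint n k (1 / 2)) ∧
    ∀ᶠ n : ℕ in atTop, ∀ k : ℕ, 2 ≤ k →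
      kPoint n k (1 / 2) ≤ (2 : ℝ) ^ ((396601 / 1000000 : ℝ) * n) := by
  simp_rw [kPoint_eq]
  have hpi := Real.pi_pos
  have hlog2 : 0 < Real.log 2 := Real.log_pos (by norm_num)
  refine ⟨fun n k s hk hs => ⟨fun C h1 h2 => SP.le_KS hk hs fun B hB => SP.sbound_card hB h1 h2,
    SP.le_KS hk hs fun B hB => SP.KS_le (SP.sbound_mono hB)⟩,
    fun n k M s h1 h2 => SP.KS_le (SP.sbound_exact h2 h1),
    fun n k s g T lam hn hk hc hm => SP.KS_le (SP.scert_bound hn hk (cert_of hc) hm),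
    ⟨1 / 2187000000000000, by norm_num, fun ε hε hε1 s hs => ?_⟩, ?_, ?_⟩
  · filter_upwards [SP.barrier ε hε hε1 s hs] with n hn k hk hkn
    refine SP.le_KS hk hs fun B hB => hn k (hkn.trans (le_of_eq ?_)) B hB
    ring_nf
  · obtain ⟨c0, hc0⟩ : ∃ c0 : ℝ, c0 = 1 / 2 * Real.logb 2 (2 * Real.exp 1 / Real.pi) := ⟨_, rfl⟩
    have hc : 3955 / 10000 < c0 := by
      rw [hc0]
      exact Pool.Agent.TH41.KL.FINf.num_lower
    obtain ⟨ε, hε⟩ : ∃ ε : ℝ, ε = min ((c0 - 3955 / 10000) * Real.log 2) 1 := ⟨_, rfl⟩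
    have hε0 : 0 < ε := by
      rw [hε]
      exact lt_min (mul_pos (by linarith) hlog2) one_pos
    have hε1 : ε ≤ 1 := by
      rw [hε]
      exact min_le_right _ _
    have hε2 : ε ≤ (c0 - 3955 / 10000) * Real.log 2 := by
      rw [hε]
      exact min_le_left _ _
    refine ⟨(ε / 3) ^ 6 / 3000000000000, by positivity, ?_⟩
    filter_upwards [SP.barrier ε hε0 hε1 (1 / 2) (by norm_num)] with n hn k hk hkn
    refine SP.le_KS hk (by norm_num) fun B hB => le_trans ?_ (hn k hkn B hB)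
    have e1 : (Real.exp 1 / (Real.pi * (1 - 1 / 2))) ^ ((n : ℝ) / 2) =
        Real.exp (c0 * Real.log 2 * n) := by
      rw [show Real.exp 1 / (Real.pi * (1 - 1 / 2)) = 2 * Real.exp 1 / Real.pi by
        field_simp; norm_num]
      rw [Real.rpow_def_of_pos (by positivity), hc0, Real.logb]
      congr 1
      field_simp
    rw [e1, ← Real.exp_add, Real.rpow_def_of_pos (by norm_num), Real.exp_le_exp]
    have hn0 : (0 : ℝ) ≤ n := Nat.cast_nonneg n
    nlinarith [mul_le_mul_of_nonneg_right hε2 hn0]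
  · filter_upwards [Pool.Agent.TH41.BL.k10_fin.2, eventually_gt_atTop 0] with n hn hn0 k hk
    obtain ⟨g, hg, hm, hb⟩ := hn
    exact (SP.KS_le (sbound_two hk (lp_bound hn0 hg hm))).trans hb

end Pool.Agent.Results.MP_b5f63d_co.KPointKissing
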