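import Pool.Agent.Y570.LK.Asym
import Pool.Agent.Results.MP_b5f63d_co.KPointKissing

/-!
# MP_b5f63d_co: barriers for the Lasserre hierarchy for kissing numbers and spherical codes

A pseudo-code of level `(s, t)` on a finite set `X` of unit vectors of `ℝ^n` is a real function `y`
on the subsets of `X` which behaves like `y(S) = Prob(S ⊆ C)` for a random spherical code `C ⊆ X`
with inner products `≤ c`, as far as this can be seen by the Lasserre (sum of squares) hierarchy: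
`y(∅) = 1`, `y(S) = 0` if `S` has two points with inner product `> c`, all pseudo-probabilities
`Prob(D ⊆ C, F ∩ C = ∅)` with `|D| + |F| ≤ s + 2t` are nonnegative, and for `|D| + |F| ≤ s` the
moment matrix of the polynomials of degree `≤ t` in the variables `[x ∈ C]`, conditioned on
`D ⊆ C, F ∩ C = ∅`, is positive semidefinite. For `s = 0` these are (discrete) feasible solutions of
the level `t` of the Lasserre hierarchy of de Laat and Vallentin for packing problems on the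
sphere, and for `t = 1` they are the pseudo-codes of the `(s + 2)`-point bound.

The bounds of this hierarchy bound all spherical codes, they decrease, and the level `(s, t)` is
exact if no code has more than `s + t` points. But for all levels with `t log (t + 1) ≤ κ n` and
`s ≤ exp(κ n)` the bound for the kissing number is at least `(2/√3)^n 2^((0.0138 - u) n / t)`, where
`(2/√3)^n = 2^(0.2075... n)` is the classical lower bound for the kissing number. In particular,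
no fixed level can show that the classical lower bound is sharp, not even that `c_+ = 0.2075...`;
and a bound `n^A (2/√3)^n` needs levels `t ≥ κ n / log n`.
-/

open MeasureTheory Filter Topology

namespace Pool.Agent.Results.MP_b5f63d_co.LasserreKissing

/-- The pseudo-probability of `D ∪ S ⊆ C, F ∩ C = ∅`:
`∑_{G ⊆ F} (-1)^|G| y(D ∪ G ∪ S)`. -/
def pseudoProb {V : Type} [DecidableEq V] (y : Finset V → ℝ) (D F S : Finset V) : ℝ :=
  ∑ G ∈ F.powerset, (-1) ^ G.card * y (D ∪ G ∪ S)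

open Classical in
/-- Pseudo-codes of level `(s, t)` with inner products at most `c` on the finite set `X`. The rows
and columns of the matrices are indexed by the sets `S` with at most `t` points. -/
structure IsPseudoCode (n s t : ℕ) (c : ℝ) (X : Finset (EuclideanSpace ℝ (Fin n)))
    (y : Finset X → ℝ) : Prop where
  one : y ∅ = 1
  sep : ∀ S : Finset X, ∀ u ∈ S, ∀ v ∈ S, u ≠ v →
    c < inner ℝ (u : EuclideanSpace ℝ (Fin n)) v → y S = 0
  nonneg : ∀ D F : Finset X, D.card + F.card ≤ s + 2 * t → 0 ≤ pseudoProb y D F ∅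
  psd : ∀ D F : Finset X, D.card + F.card ≤ s → ∀ a : Finset X → ℝ,
    (∀ S, t < S.card → a S = 0) → 0 ≤ ∑ S, ∑ T, a S * a T * pseudoProb y D F (S ∪ T)

/-- `B` is an upper bound for `∑_x y({x})` for all pseudo-codes `y` of level `(s, t)` on finite
sets of unit vectors. -/
def IsBound (n s t : ℕ) (c B : ℝ) : Prop :=
  ∀ X : Finset (EuclideanSpace ℝ (Fin n)), (∀ x ∈ X, ‖x‖ = 1) →
    ∀ y : Finset X → ℝ, IsPseudoCode n s t c X y → ∑ x, y {x} ≤ B

/-- The Lasserre bound of level `(s, t)` for spherical codes in `S^(n-1)` with inner products at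
most `c`: the best upper bound of this kind. -/
noncomputable def lasserre (n s t : ℕ) (c : ℝ) : ℝ := sInf {B : ℝ | IsBound n s t c B}

open Pool.Agent.Y570

lemma code_iff (n s t : ℕ) (c : ℝ) (X : Finset (EuclideanSpace ℝ (Fin n))) (y : Finset X → ℝ) :
    IsPseudoCode n s t c X y ↔ LK.LCode n s t c X y :=
  ⟨fun h => ⟨h.one, h.sep, h.nonneg, h.psd⟩, fun h => ⟨h.one, h.sep, h.nonneg, h.psd⟩⟩

lemma bound_iff (n s t : ℕ) (c B : ℝ) : IsBound n s t c B ↔ LK.LSB n s t c B := by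
  unfold IsBound LK.LSB
  simp only [code_iff]

lemma lasserre_eq (n s t : ℕ) (c : ℝ) : lasserre n s t c = LK.LS n s t c := by
  unfold lasserre LK.LS
  simp only [bound_iff]

/-- the barrier -/
lemma lower {c : ℝ} (hc0 : 4 / Real.exp 1 - 1 < c) (hc1 : c < 1) {u : ℝ} (hu : 0 < u) :
    ∃ κ : ℝ, 0 < κ ∧ ∀ᶠ n : ℕ in atTop, ∀ s t : ℕ, 1 ≤ t →
      (t : ℝ) * Real.log (t + 1) ≤ κ * n → (s : ℝ) ≤ Real.exp (κ * n) →
      (1 / √(1 - c ^ 2)) ^ n * (Real.exp 1 * (1 + c) / 4) ^ ((n : ℝ) / (2 * t)) *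
        Real.exp (-u * (n / t)) ≤ lasserre n s t c := by
  have he := Real.exp_pos 1
  have hc00 : 0 < c := by
    have : 1 < 4 / Real.exp 1 := by
      rw [lt_div_iff₀ he]
      linarith [Real.exp_one_lt_d9]
    linarith
  have hcc : 0 < 1 - c ^ 2 := by nlinarith
  obtain ⟨κ, hκ, hev⟩ := LK.barrier hc0 hc1 hu
  refine ⟨κ, hκ, ?_⟩
  filter_upwards [hev] with n hn s t ht h2 h3
  have ht0 : (0 : ℝ) < t := by exact_mod_cast ht
  rw [lasserre_eq]
  refine LK.le_LS ht hc1 fun B hB => le_trans (le_of_eq ?_) (hn s t ht h2 h3 B hB)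
  have e1 : (1 / √(1 - c ^ 2)) ^ n = Real.exp (-(1 / 2 * Real.log (1 - c ^ 2) * n)) := by
    rw [Pool.Agent.TH41.LP.VOLf.pow_exp _ (by positivity), one_div, Real.log_inv,
      Real.log_sqrt hcc.le]
    congr 1
    ring
  rw [e1, Real.rpow_def_of_pos (by positivity), ← Real.exp_add, ← Real.exp_add]
  congr 1
  field_simp
  ring

lemma base : (1 / √(1 - (1 / 2 : ℝ) ^ 2)) = 2 / √3 := by
  have h : (1 : ℝ) - (1 / 2) ^ 2 = 3 / 2 ^ 2 := by norm_num
  rw [h, Real.sqrt_div (by norm_num), Real.sqrt_sq (by norm_num), one_div_div]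

lemma log3 : 10986 / 10000 < Real.log 3 ∧ Real.log 3 < 109862 / 100000 ∧
    109860 / 100000 < Real.log 3 := by
  have h1 := Real.log_two_gt_d9
  have h2 := Real.log_two_lt_d9
  have h3 : 12 * Real.log 3 = 19 * Real.log 2 + Real.log (531441 / 524288) := by
    have e1 : Real.log ((3 : ℝ) ^ 12) = 12 * Real.log 3 := by
      rw [Real.log_pow]
      norm_num
    have e2 : Real.log ((2 : ℝ) ^ 19) = 19 * Real.log 2 := by
      rw [Real.log_pow]
      norm_num
    rw [← e1, ← e2, ← Real.log_mul (by norm_num) (by norm_num)]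
    norm_num
  have h4 := Real.log_le_sub_one_of_pos (show (0 : ℝ) < 531441 / 524288 by norm_num)
  have h5 := Real.one_sub_inv_le_log_of_pos (show (0 : ℝ) < 531441 / 524288 by norm_num)
  norm_num at h4 h5
  refine ⟨?_, ?_, ?_⟩ <;> linarith

lemma numbers : (138 / 10000 < 1 / 2 * Real.logb 2 (3 * Real.exp 1 / 8) ∧
    1 / 2 * Real.logb 2 (3 * Real.exp 1 / 8) < 139 / 10000) ∧
    2075 / 10000 < Real.logb 2 (2 / √3) ∧ Real.logb 2 (2 / √3) < 2076 / 10000 := by
  have h1 := Real.log_two_gt_d9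
  have h2 := Real.log_two_lt_d9
  have h0 : 0 < Real.log 2 := by linarith
  obtain ⟨-, h3, h4⟩ := log3
  have e1 : 1 / 2 * Real.logb 2 (3 * Real.exp 1 / 8) =
      (Real.log 3 + 1 - 3 * Real.log 2) / (2 * Real.log 2) := by
    unfold Real.logb
    have h8 : Real.log 8 = 3 * Real.log 2 := by
      rw [show (8 : ℝ) = 2 ^ 3 by norm_num, Real.log_pow]
      norm_num
    rw [Real.log_div (by positivity) (by norm_num), Real.log_mul (by norm_num)
      (Real.exp_pos 1).ne', Real.log_exp, h8]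
    field_simp
  have e2 : Real.logb 2 (2 / √3) = (2 * Real.log 2 - Real.log 3) / (2 * Real.log 2) := by
    unfold Real.logb
    rw [Real.log_div (by norm_num) (by positivity), Real.log_sqrt (by norm_num)]
    field_simp
  rw [e1, e2]
  refine ⟨⟨?_, ?_⟩, ?_, ?_⟩
  · rw [lt_div_iff₀ (by linarith)]
    linarith
  · rw [div_lt_iff₀ (by linarith)]
    linarith
  · rw [lt_div_iff₀ (by linarith)]
    linarith
  · rw [div_lt_iff₀ (by linarith)]
    linarith

/-- the kissing number -/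
lemma kissing {u : ℝ} (hu : 0 < u) : ∃ κ : ℝ, 0 < κ ∧ ∀ᶠ n : ℕ in atTop, ∀ s t : ℕ, 1 ≤ t →
    (t : ℝ) * Real.log (t + 1) ≤ κ * n → (s : ℝ) ≤ Real.exp (κ * n) →
    (2 / √3) ^ n * (2 : ℝ) ^ ((1 / 2 * Real.logb 2 (3 * Real.exp 1 / 8) - u) * n / t) ≤
      lasserre n s t (1 / 2) := by
  have he := Real.exp_pos 1
  have hl2 : 0 < Real.log 2 := Real.log_pos (by norm_num)
  obtain ⟨κ, hκ, hev⟩ := lower (c := 1 / 2) (by
    rw [sub_lt_iff_lt_add, div_lt_iff₀ he]
    linarith [Real.exp_one_gt_d9]) (by norm_num) (u := u * Real.log 2) (by positivity)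
  refine ⟨κ, hκ, ?_⟩
  filter_upwards [hev] with n hn s t ht h2 h3
  have ht0 : (0 : ℝ) < t := by exact_mod_cast ht
  refine le_trans (le_of_eq ?_) (hn s t ht h2 h3)
  rw [base, mul_assoc]
  congr 1
  have h4 : Real.exp 1 * (1 + 1 / 2) / 4 = 3 * Real.exp 1 / 8 := by ring
  rw [h4, Real.rpow_def_of_pos (by positivity), Real.rpow_def_of_pos (by positivity),
    ← Real.exp_add]
  congr 1
  unfold Real.logb
  field_simp
  ring

/-- the levels which are needed for a bound `n^A (2/√3)^n` -/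
lemma levels (A : ℝ) : ∃ κ : ℝ, 0 < κ ∧ ∀ᶠ n : ℕ in atTop, ∀ s t : ℕ, 1 ≤ t →
    (s : ℝ) ≤ Real.exp (κ * n) → lasserre n s t (1 / 2) ≤ (n : ℝ) ^ A * (2 / √3) ^ n →
    κ * n / Real.log n ≤ t := by
  have h0 : 0 < Real.log 2 := Real.log_pos (by norm_num)
  obtain ⟨c₀, hc₀, hev⟩ := kissing (u := 38 / 10000) (by norm_num)
  obtain ⟨A', hA'⟩ : ∃ A' : ℝ, A' = max A 1 := ⟨_, rfl⟩
  have hA1 : 1 ≤ A' := by rw [hA']; exact le_max_right _ _
  have hAA : A ≤ A' := by rw [hA']; exact le_max_left _ _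
  obtain ⟨c, hc⟩ : ∃ c : ℝ, c = min (min (c₀ / 2) 1) (Real.log 2 / (100 * A')) := ⟨_, rfl⟩
  have hc0 : 0 < c := by
    rw [hc]
    exact lt_min (lt_min (by positivity) one_pos) (by positivity)
  have hc1 : c ≤ c₀ / 2 := by
    rw [hc]
    exact (min_le_left _ _).trans (min_le_left _ _)
  have hc2 : c ≤ 1 := by
    rw [hc]
    exact (min_le_left _ _).trans (min_le_right _ _)
  have hc3 : c ≤ Real.log 2 / (100 * A') := by
    rw [hc]
    exact min_le_right _ _
  refine ⟨c, hc0, ?_⟩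
  filter_upwards [hev, eventually_ge_atTop 3] with n hn hn3 s t ht hs hL
  have hn3R : (3 : ℝ) ≤ n := by exact_mod_cast hn3
  have ht0 : (1 : ℝ) ≤ t := by exact_mod_cast ht
  have hln : 1 ≤ Real.log n := by
    rw [Real.le_log_iff_exp_le (by linarith)]
    linarith [Real.exp_one_lt_d9]
  by_contra hcon
  rw [not_le, lt_div_iff₀ (by linarith)] at hcon
  have htn : (t : ℝ) ≤ n := by nlinarith
  have h1 : Real.log (t + 1) ≤ 2 * Real.log n := by
    rw [← Real.log_rpow (by linarith)]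
    refine Real.log_le_log (by linarith) ?_
    rw [Real.rpow_two]
    nlinarith
  have h2 : (t : ℝ) * Real.log (t + 1) ≤ c₀ * n := by nlinarith
  have h3 : (s : ℝ) ≤ Real.exp (c₀ * n) := by
    refine hs.trans (Real.exp_le_exp.2 ?_)
    nlinarith
  have h4 := (hn s t ht h2 h3).trans hL
  have h5 : (n : ℝ) ^ A ≤ (n : ℝ) ^ A' := Real.rpow_le_rpow_of_exponent_le (by linarith) hAA
  rw [mul_comm ((n : ℝ) ^ A)] at h4
  have h6 := le_of_mul_le_mul_left h4 (by positivity)
  have h7 : (2 : ℝ) ^ (1 / 100 * ((n : ℝ) / t)) ≤ (n : ℝ) ^ A' := by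
    refine le_trans (Real.rpow_le_rpow_of_exponent_le (by norm_num) ?_) (h6.trans h5)
    have h8 := numbers.1.1
    rw [mul_div_assoc]
    refine mul_le_mul_of_nonneg_right (by linarith) (by positivity)
  rw [Real.rpow_def_of_pos (by norm_num), Real.rpow_def_of_pos (by linarith), Real.exp_le_exp] at h7
  have h9 : Real.log 2 * (n : ℝ) ≤ 100 * A' * (t * Real.log n) := by
    have h10 := mul_le_mul_of_nonneg_right h7 (show 0 ≤ 100 * (t : ℝ) by positivity)
    have h11 : Real.log 2 * (1 / 100 * ((n : ℝ) / t)) * (100 * t) = Real.log 2 * n := by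
      field_simp
    rw [h11] at h10
    linarith
  have h12 : 100 * A' * (t * Real.log n) < 100 * A' * (c * n) :=
    mul_lt_mul_of_pos_left hcon (by positivity)
  have h13 : 100 * A' * (c * n) ≤ Real.log 2 * n := by
    rw [le_div_iff₀ (by positivity)] at hc3
    nlinarith
  linarith

/-- **Barriers for the Lasserre hierarchy for kissing numbers and spherical codes.** -/
theorem result :
    (∀ (n s t : ℕ) (c : ℝ), 1 ≤ t → c < 1 →
      (∀ C : Finset (EuclideanSpace ℝ (Fin n)), (∀ x ∈ C, ‖x‖ = 1) →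
        (∀ x ∈ C, ∀ z ∈ C, x ≠ z → inner ℝ x z ≤ c) → (C.card : ℝ) ≤ lasserre n s t c) ∧
      lasserre n (s + 1) t c ≤ lasserre n s t c ∧
      lasserre n s (t + 1) c ≤ lasserre n (s + 1) t c) ∧
    (∀ (n s t M : ℕ) (c : ℝ), 1 ≤ t →
      (∀ C : Finset (EuclideanSpace ℝ (Fin n)), (∀ x ∈ C, ‖x‖ = 1) →
        (∀ x ∈ C, ∀ z ∈ C, x ≠ z → inner ℝ x z ≤ c) → C.card ≤ M) →
      M ≤ s + t → lasserre n s t c ≤ M) ∧
    (∀ c : ℝ, 4 / Real.exp 1 - 1 < c → c < 1 → ∀ u : ℝ, 0 < u → ∃ κ : ℝ, 0 < κ ∧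
      ∀ᶠ n : ℕ in atTop, ∀ s t : ℕ, 1 ≤ t →
      (t : ℝ) * Real.log (t + 1) ≤ κ * n → (s : ℝ) ≤ Real.exp (κ * n) →
      (1 / √(1 - c ^ 2)) ^ n * (Real.exp 1 * (1 + c) / 4) ^ ((n : ℝ) / (2 * t)) *
        Real.exp (-u * (n / t)) ≤ lasserre n s t c) ∧
    (∀ u : ℝ, 0 < u → ∃ κ : ℝ, 0 < κ ∧ ∀ᶠ n : ℕ in atTop, ∀ s t : ℕ, 1 ≤ t →
      (t : ℝ) * Real.log (t + 1) ≤ κ * n → (s : ℝ) ≤ Real.exp (κ * n) →
      (2 / √3) ^ n * (2 : ℝ) ^ ((1 / 2 * Real.logb 2 (3 * Real.exp 1 / 8) - u) * n / t) ≤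
        lasserre n s t (1 / 2)) ∧
    (∀ A : ℝ, ∃ κ : ℝ, 0 < κ ∧ ∀ᶠ n : ℕ in atTop, ∀ s t : ℕ, 1 ≤ t →
      (s : ℝ) ≤ Real.exp (κ * n) → lasserre n s t (1 / 2) ≤ (n : ℝ) ^ A * (2 / √3) ^ n →
      κ * n / Real.log n ≤ t) ∧
    (∀ᶠ n : ℕ in atTop, ∀ s t : ℕ, 1 ≤ t →
      lasserre n s t (1 / 2) ≤ (2 : ℝ) ^ ((396601 / 1000000 : ℝ) * n)) ∧
    (138 / 10000 < 1 / 2 * Real.logb 2 (3 * Real.exp 1 / 8) ∧
      1 / 2 * Real.logb 2 (3 * Real.exp 1 / 8) < 139 / 10000) ∧
    2075 / 10000 < Real.logb 2 (2 / √3) ∧ Real.logb 2 (2 / √3) < 2076 / 10000 := by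
  refine ⟨fun n s t c ht hc => ?_, fun n s t M c ht hC hM => ?_, fun c h0 h1 u hu => lower h0 h1 hu,
    fun u hu => kissing hu, levels, ?_, numbers⟩
  · simp_rw [lasserre_eq]
    exact ⟨fun C h1 h2 => LK.le_LS ht hc fun B hB => LK.lsb_card hB h1 h2,
      LK.le_LS ht hc fun B hB => LK.LS_le (LK.lsb_s hB),
      LK.le_LS (by omega) hc fun B hB => LK.LS_le (LK.lsb_st hB)⟩
  · rw [lasserre_eq]
    exact LK.LS_le (LK.lsb_exact ht hM hC)
  · filter_upwards [KPointKissing.result.2.2.2.2.2] with n hn s t ht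
    rw [lasserre_eq]
    refine (LK.LS_le_KS ht (by norm_num)).trans ?_
    have h1 := hn (s + t + 1) (by omega)
    rwa [KPointKissing.kPoint_eq] at h1

end Pool.Agent.Results.MP_b5f63d_co.LasserreKissing
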